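import Pool.Agent.TH546.PB.Wid

/-! # The arcs of a long self-avoiding polygon on `ℤ²`, uniformly in its perimeter -/

set_option autoImplicit false

namespace Pool.Agent.Results.MP_c23e5f_co.ArcsOfPolygons

open scoped Classical

/-- a closed nearest-neighbour loop on `ℤ²` with `m` steps, rooted at the origin and oriented,
that visits no vertex twice -/
def IsLoop (m : ℕ) (f : ZMod m → ℤ × ℤ) : Prop :=
  f 0 = 0 ∧ Function.Injective f ∧
    ∀ i : ZMod m, |(f (i + 1)).1 - (f i).1| + |(f (i + 1)).2 - (f i).2| = 1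

/-- the rooted oriented polygons of perimeter `2 N` -/
def loops (N : ℕ) : Set (ZMod (2 * N) → ℤ × ℤ) := {f | IsLoop (2 * N) f}

/-- the mean for the uniform rooted oriented polygon of perimeter `2 N` -/
noncomputable def mean (N : ℕ) (F : (ZMod (2 * N) → ℤ × ℤ) → ℝ) : ℝ :=
  (∑ᶠ f ∈ loops N, F f) / (loops N).ncard

/-- the probability of `A` for the uniform rooted oriented polygon of perimeter `2 N` -/
noncomputable def prob (N : ℕ) (A : Set (ZMod (2 * N) → ℤ × ℤ)) : ℝ :=
  mean N (fun f => if f ∈ A then 1 else 0)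

/-- `v` is a self-avoiding walk with `m` steps on `ℤ²` which starts at the origin -/
def SAW (m : ℕ) (v : Fin (m + 1) → ℤ × ℤ) : Prop :=
  v 0 = (0, 0) ∧
  (∀ i : Fin m, |(v i.succ).1 - (v i.castSucc).1| + |(v i.succ).2 - (v i.castSucc).2| = 1) ∧
  Function.Injective v

/-- the self-avoiding walks with `m` steps -/
def walks (m : ℕ) : Set (Fin (m + 1) → ℤ × ℤ) := {v | SAW m v}

/-- the arc with `m` steps which starts at the root: `k ↦ f k`, `0 ≤ k ≤ m` -/
def arc (m : ℕ) {N : ℕ} (f : ZMod (2 * N) → ℤ × ℤ) : Fin (m + 1) → ℤ × ℤ :=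
  fun k => f ((k.1 : ℕ) : ZMod (2 * N))

/-- the relative entropy of the joint law of the `j` consecutive arcs with `m` steps which follow
the root, with respect to `j` independent uniform self-avoiding walks with `m` steps: the arc with
`jm` steps determines the `j` arcs and is determined by them, and every `j`-tuple of walks has mass
`|walks m|⁻ʲ` under the product measure -/
noncomputable def relEnt (N m j : ℕ) : ℝ :=
  ∑ᶠ v ∈ walks (j * m), prob N {f | arc (j * m) f = v} *
    Real.log (prob N {f | arc (j * m) f = v} / (1 / ((walks m).ncard : ℝ)) ^ j)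

/-- the Euclidean diameter of a path -/
noncomputable def diam {m : ℕ} (v : Fin (m + 1) → ℤ × ℤ) : ℝ :=
  ⨆ q : Fin (m + 1) × Fin (m + 1),
    Real.sqrt (((v q.1).1 - (v q.2).1 : ℝ) ^ 2 + ((v q.1).2 - (v q.2).2 : ℝ) ^ 2)

/-- the contacts of the root: the sum of `min (d, 2N - d, m)` over the vertices `f d`,
`2 ≤ d ≤ 2N - 2`, of the polygon which are neighbours of the root `f 0 = 0` on `ℤ²`;
`min (d, 2N - d)` is the distance from `f d` to the root along the polygon -/
noncomputable def contact (m : ℕ) {N : ℕ} (f : ZMod (2 * N) → ℤ × ℤ) : ℕ :=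
  ∑ d ∈ (Finset.Icc 2 (2 * N - 2)).filter
    (fun d : ℕ => |(f (d : ZMod (2 * N))).1| + |(f (d : ZMod (2 * N))).2| = 1),
    min (min d (2 * N - d)) m

open Pool.Agent.TH546.SAW in
theorem loops_eq {N : ℕ} (hN : 1 ≤ N) : loops N = (PL N : Set (ZMod (2 * N) → ℤ × ℤ)) := by
  ext f
  rw [Finset.mem_coe, mem_PL hN]
  rfl

open Pool.Agent.TH546.SAW in
theorem walks_eq (n : ℕ) : walks n = (W n : Set (Fin (n + 1) → ℤ × ℤ)) := by
  ext ω
  rw [Finset.mem_coe, mem_W]
  rfl

open Pool.Agent.TH546.SAW Pool.Agent.W840.CT in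
theorem ncard_walks (n : ℕ) : (walks n).ncard = cn n := by
  rw [walks_eq, Set.ncard_coe_finset, card_W]

open Pool.Agent.TH546.SAW in
theorem mean_eq {N : ℕ} (hN : 1 ≤ N) (F : (ZMod (2 * N) → ℤ × ℤ) → ℝ) :
    mean N F = (∑ f ∈ PL N, F f) / (PL N).card := by
  unfold mean
  rw [loops_eq hN, Set.ncard_coe_finset, finsum_mem_coe_finset]

open Pool.Agent.TH546.SAW in
theorem arc_eq {N m : ℕ} {f : ZMod (2 * N) → ℤ × ℤ} (hf : f 0 = 0) : arc m f = pp m 0 f := by
  funext k
  unfold arc pp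
  rw [hf, zero_add, sub_zero]

open Pool.Agent.TH546.SAW in
theorem root {N : ℕ} (hN : 1 ≤ N) {f : ZMod (2 * N) → ℤ × ℤ} (hf : f ∈ PL N) : f 0 = 0 :=
  ((mem_PL hN).1 hf).1

open Pool.Agent.TH546.SAW Pool.Agent.W840.CT in
theorem prob_eq {N M : ℕ} (hN : 1 ≤ N) (v : Fin (M + 1) → ℤ × ℤ) :
    prob N {f | arc M f = v} = plaw N M v := by
  unfold prob plaw
  rw [mean_eq hN, Finset.card_filter]
  push_cast
  congr 1
  refine Finset.sum_congr rfl (fun f hf => ?_)
  have h0 := arc_eq (m := M) (root hN hf)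
  by_cases h : pp M 0 f = v
  · rw [if_pos h, if_pos (by rw [Set.mem_ofPred_eq, h0]; exact h)]
  · rw [if_neg h, if_neg (by rw [Set.mem_ofPred_eq, h0]; exact h)]

open Pool.Agent.TH546.SAW Pool.Agent.W840.CT Pool.Agent.TH546.PB in
/-- the contacts of the root and the numbers `QQ` -/
theorem contact_eq {N m : ℕ} (hN : 2 ≤ N) :
    ∑ f ∈ PL N, (contact m f : ℝ) =
      ∑ d ∈ Finset.Icc 2 (2 * N - 2), (min (min d (2 * N - d)) m : ℝ) * Pool.Agent.TH546.PB.QQ N d := by
  have h1 : ∀ f ∈ PL N, (contact m f : ℝ) = ∑ d ∈ Finset.Icc 2 (2 * N - 2),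
      if adj (f 0) (f ((d : ℕ) : ZMod (2 * N))) then ((min (min d (2 * N - d)) m : ℕ) : ℝ)
        else 0 := by
    intro f hf
    have h0 := root (by omega) hf
    unfold contact
    rw [Finset.sum_filter]
    push_cast
    refine Finset.sum_congr rfl (fun d hd => ?_)
    have e : adj (f 0) (f ((d : ℕ) : ZMod (2 * N))) ↔
        |(f (d : ZMod (2 * N))).1| + |(f (d : ZMod (2 * N))).2| = 1 := by
      unfold adj
      rw [h0]
      simp
    rw [Finset.mem_Icc] at hd
    simp only [e]
  rw [Finset.sum_congr rfl h1, Finset.sum_comm]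
  refine Finset.sum_congr rfl (fun d hd => ?_)
  rw [Finset.mem_Icc] at hd
  rw [← Finset.sum_filter, Finset.sum_const, nsmul_eq_mul, mul_comm]
  unfold Pool.Agent.TH546.PB.QQ
  rw [Nat.cast_min, Nat.cast_min, Nat.cast_sub (by omega)]
  push_cast
  rfl

open Pool.Agent.TH546.SAW Pool.Agent.W840.CT Pool.Agent.TH546.PB in
/-- folding the lags `d` and `2N - d` -/
theorem contact_le {N m : ℕ} (hN : 2 ≤ N) :
    ∑ d ∈ Finset.Icc 2 (2 * N - 2), (min (min d (2 * N - d)) m : ℝ) * Pool.Agent.TH546.PB.QQ N d ≤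
      2 * ∑ d ∈ Finset.Icc 2 N, (min d m : ℝ) * Pool.Agent.TH546.PB.QQ N d := by
  have hg : ∀ d : ℕ, 0 ≤ (min d m : ℝ) * Pool.Agent.TH546.PB.QQ N d := fun d =>
    mul_nonneg (le_min (Nat.cast_nonneg _) (Nat.cast_nonneg _)) (Nat.cast_nonneg _)
  rw [← Finset.sum_filter_add_sum_filter_not (Finset.Icc 2 (2 * N - 2)) (fun d => d ≤ N)]
  have h1 : ∑ d ∈ (Finset.Icc 2 (2 * N - 2)).filter (fun d => d ≤ N),
      (min (min d (2 * N - d)) m : ℝ) * Pool.Agent.TH546.PB.QQ N d ≤ ∑ d ∈ Finset.Icc 2 N, (min d m : ℝ) * Pool.Agent.TH546.PB.QQ N d := by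
    refine (Finset.sum_le_sum (fun d _ => ?_)).trans
      (Finset.sum_le_sum_of_subset_of_nonneg ?_ (fun d _ _ => hg d))
    · refine mul_le_mul_of_nonneg_right ?_ (Nat.cast_nonneg _)
      exact min_le_min_right _ (min_le_left _ _)
    · intro d hd
      rw [Finset.mem_filter, Finset.mem_Icc] at hd
      rw [Finset.mem_Icc]
      omega
  have h2 : ∑ d ∈ (Finset.Icc 2 (2 * N - 2)).filter (fun d => ¬ d ≤ N),
      (min (min d (2 * N - d)) m : ℝ) * Pool.Agent.TH546.PB.QQ N d ≤ ∑ d ∈ Finset.Icc 2 N, (min d m : ℝ) * Pool.Agent.TH546.PB.QQ N d := by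
    have e : ∑ d ∈ (Finset.Icc 2 (2 * N - 2)).filter (fun d => ¬ d ≤ N),
        (min (min d (2 * N - d)) m : ℝ) * Pool.Agent.TH546.PB.QQ N d =
        ∑ d ∈ Finset.Icc 2 (N - 1), (min (min (2 * N - d) d) m : ℝ) * Pool.Agent.TH546.PB.QQ N d := by
      refine Finset.sum_nbij' (fun d => 2 * N - d) (fun d => 2 * N - d) ?_ ?_ ?_ ?_ ?_
      · intro d hd
        rw [Finset.mem_filter, Finset.mem_Icc] at hd
        rw [Finset.mem_Icc]
        omega
      · intro d hd
        rw [Finset.mem_Icc] at hd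
        rw [Finset.mem_filter, Finset.mem_Icc]
        omega
      · intro d hd
        rw [Finset.mem_filter, Finset.mem_Icc] at hd
        omega
      · intro d hd
        rw [Finset.mem_Icc] at hd
        omega
      · intro d hd
        rw [Finset.mem_filter, Finset.mem_Icc] at hd
        rw [QQ_symm (by omega) (by omega), Nat.cast_sub (by omega)]
        push_cast
        congr 2
        ring_nf
    rw [e]
    refine (Finset.sum_le_sum (fun d _ => ?_)).trans
      (Finset.sum_le_sum_of_subset_of_nonneg ?_ (fun d _ _ => hg d))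
    · refine mul_le_mul_of_nonneg_right ?_ (Nat.cast_nonneg _)
      exact min_le_min_right _ (min_le_right _ _)
    · intro d hd
      rw [Finset.mem_Icc] at hd ⊢
      omega
  linarith

open Pool.Agent.TH546.SAW Pool.Agent.W840.CT Pool.Agent.TH546.PB in
/-- **The arcs of a long self-avoiding polygon.** There are constants `c, K > 0` such that for all
`N` and `2 ≤ m ≤ 2N - 1`, for the uniform rooted oriented polygon of perimeter `2N` on `ℤ²`:
(1) for every `j ≥ 1` with `jm ≤ 2N - 1`, the relative entropy of `j` consecutive arcs with `m`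
steps with respect to `j` independent uniform `m`-step self-avoiding walks is at most
`K j (log m)²`; (2) the sum of `min (distance along the polygon, m)` over the contacts of the root
has mean at most `K (log m)²`; (3) if `m ≥ 16`, the diameter of the arc with `m` steps has mean at
most `K m^(1 - c / log log m)`. -/
theorem result : ∃ c K : ℝ, 0 < c ∧ 0 < K ∧ ∀ N m : ℕ, 2 ≤ m → m ≤ 2 * N - 1 →
    (∀ j : ℕ, 1 ≤ j → j * m ≤ 2 * N - 1 → relEnt N m j ≤ K * j * Real.log m ^ 2) ∧
    mean N (fun f => (contact m f : ℝ)) ≤ K * Real.log m ^ 2 ∧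
    (16 ≤ m → mean N (fun f => diam (arc m f)) ≤
      K * (m : ℝ) ^ (1 - c / Real.log (Real.log m))) := by
  obtain ⟨c, K3, hc, hK3, h3⟩ := poly_diam
  obtain ⟨K1, hK1, h1⟩ := Pool.Agent.TH546.SG.poly_entropy (p := 2) (by norm_num)
    Pool.Agent.TH546.SG.CU2 Pool.Agent.TH546.SG.PLo2
  obtain ⟨K2, hK2, h2⟩ := lag_min (p := 2) (by norm_num)
    Pool.Agent.TH546.SG.CU2 Pool.Agent.TH546.SG.PLo2
  refine ⟨c, K1 + 2 * K2 + K3, hc, by positivity, fun N m hm hmN => ⟨?_, ?_, ?_⟩⟩
  · intro j hj hjN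
    have hN1 : 1 ≤ N := by omega
    have e1 : relEnt N m j =
        ∑ v ∈ W (j * m), plaw N (j * m) v * Real.log (plaw N (j * m) v * (cn m : ℝ) ^ j) := by
      unfold relEnt
      rw [walks_eq, finsum_mem_coe_finset]
      refine Finset.sum_congr rfl (fun v _ => ?_)
      rw [prob_eq hN1, ncard_walks]
      congr 2
      rw [one_div, inv_pow, div_inv_eq_mul]
    rw [e1]
    refine (h1 m j N hm hj hjN).trans ?_
    have : K1 ≤ K1 + 2 * K2 + K3 := by linarith
    gcongr
  · have hL0 : 0 ≤ Real.log (m : ℝ) ^ 2 := by positivity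
    rcases Nat.lt_or_ge N 3 with hN | hN
    · -- no contacts for perimeter four
      have hN2 : N = 2 := by omega
      subst hN2
      have hz : ∀ f ∈ PL 2, (contact m f : ℝ) = 0 := by
        intro f hf
        have h0 := root (by norm_num) hf
        have hst := ((mem_PL (by norm_num)).1 hf).2.2
        have s0 := hst 0
        have s1 := hst 1
        rw [zero_add, h0] at s0
        have e2 : (1 + 1 : ZMod (2 * 2)) = ((2 : ℕ) : ZMod (2 * 2)) := by norm_num
        rw [e2] at s1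
        have hne : ¬ (|(f ((2 : ℕ) : ZMod (2 * 2))).1| + |(f ((2 : ℕ) : ZMod (2 * 2))).2| = 1) := by
          intro h4
          simp only [Prod.fst_zero, Prod.snd_zero, sub_zero] at s0
          rcases abs_cases (f 1).1 with ⟨a1, _⟩ | ⟨a1, _⟩ <;>
          rcases abs_cases (f 1).2 with ⟨a2, _⟩ | ⟨a2, _⟩ <;>
          rcases abs_cases ((f ((2 : ℕ) : ZMod (2 * 2))).1 - (f 1).1) with ⟨a3, _⟩ | ⟨a3, _⟩ <;>
          rcases abs_cases ((f ((2 : ℕ) : ZMod (2 * 2))).2 - (f 1).2) with ⟨a4, _⟩ | ⟨a4, _⟩ <;>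
          rcases abs_cases (f ((2 : ℕ) : ZMod (2 * 2))).1 with ⟨a5, _⟩ | ⟨a5, _⟩ <;>
          rcases abs_cases (f ((2 : ℕ) : ZMod (2 * 2))).2 with ⟨a6, _⟩ | ⟨a6, _⟩ <;>
          omega
        unfold contact
        rw [Finset.filter_eq_empty_iff.2, Finset.sum_empty, Nat.cast_zero]
        intro d hd
        rw [Finset.mem_Icc] at hd
        have hd2 : d = 2 := by omega
        subst hd2
        exact hne
      rw [mean_eq (by norm_num), Finset.sum_congr rfl hz, Finset.sum_const_zero, zero_div]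
      positivity
    · have hPL : (0 : ℝ) < (PL N).card := by exact_mod_cast (PL_nonempty (by omega)).card_pos
      rw [mean_eq (by omega), contact_eq (by omega), div_le_iff₀ hPL]
      have h4 := contact_le (m := m) (show 2 ≤ N by omega)
      have h5 := h2 m N hm hN
      have h6 : (2 * K2) * Real.log (m : ℝ) ^ 2 ≤ (K1 + 2 * K2 + K3) * Real.log (m : ℝ) ^ 2 := by
        refine mul_le_mul_of_nonneg_right ?_ hL0
        linarith
      have h7 := mul_le_mul_of_nonneg_right h6 hPL.le
      linarith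
  · intro hm16
    have hN1 : 1 ≤ N := by omega
    have hPL : (0 : ℝ) < (PL N).card := by exact_mod_cast (PL_nonempty (by omega)).card_pos
    rw [mean_eq hN1, div_le_iff₀ hPL]
    have h4 := (h3 m N hm16 hmN).2
    have e : ∑ f ∈ PL N, diam (arc m f) = ∑ f ∈ PL N, dm (pp m 0 f) := by
      refine Finset.sum_congr rfl (fun f hf => ?_)
      rw [arc_eq (root hN1 hf)]
      rfl
    rw [e]
    refine h4.trans ?_
    have hY : 0 < Pool.Agent.H924P.G.Y c m := Pool.Agent.H924P.G.Y_pos c m hm16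
    unfold Pool.Agent.H924P.G.Y at hY ⊢
    rw [mul_comm]
    refine mul_le_mul_of_nonneg_right ?_ hPL.le
    refine mul_le_mul_of_nonneg_right ?_ hY.le
    linarith

end Pool.Agent.Results.MP_c23e5f_co.ArcsOfPolygons
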