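import Pool.Agent.W387.Q.Hyp
import Pool.Agent.TH303.LTwo

/-!
Mean width of square-lattice self-avoiding polygons: `|W_{n+1}/W_n - 1| ≤ K (log n) / n^(1/2)`,
and reduction of `W_n ≍ n^(3/4)` to sparse sequences.
-/

namespace Pool.Agent.Results.MP_c23e5f_co.ConsecutiveMeansLogTwo

open Filter Topology

/-- a closed nearest-neighbour loop on `ℤ²` with `m` steps, rooted at the origin and oriented,
that visits no vertex twice -/
def IsLoop (m : ℕ) (f : ZMod m → ℤ × ℤ) : Prop :=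
  f 0 = 0 ∧ Function.Injective f ∧
    ∀ i : ZMod m, |(f (i + 1)).1 - (f i).1| + |(f (i + 1)).2 - (f i).2| = 1

/-- the width (horizontal extent) of a loop -/
noncomputable def width (m : ℕ) (f : ZMod m → ℤ × ℤ) : ℕ :=
  sSup {w : ℕ | ∃ i j, w = ((f i).1 - (f j).1).natAbs}

/-- the mean width `W_n` of the self-avoiding polygons of perimeter `2 n`: the average of the
width over the rooted oriented polygons. -/
noncomputable def W (n : ℕ) : ℝ :=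
  (∑ᶠ f ∈ {f : ZMod (2 * n) → ℤ × ℤ | IsLoop (2 * n) f}, (width (2 * n) f : ℝ)) /
    ({f : ZMod (2 * n) → ℤ × ℤ | IsLoop (2 * n) f}.ncard : ℝ)

/-- **Theorem.** (1) There is `K` with `|W_{n+1}/W_n - 1| ≤ K (log n) / n^(1/2)` for all `n ≥ 2`.
(2) Let `s_k → ∞` be a sequence of integers with `(s_{k+1} - s_k) (log s_k) / s_k^(1/2) → 0` and
`θ ≥ 0`.  If `a n^θ ≤ W_n ≤ b n^θ` for `n = s_k` and all large `k`, where `a > 0`, then
`2^(-θ-1) a n^θ ≤ W_n ≤ 2 b n^θ` for all large `n`. -/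
theorem result : (∃ K : ℝ, ∀ n : ℕ, 2 ≤ n →
      |W (n + 1) / W n - 1| ≤ K * (Real.log n / Real.sqrt n)) ∧
    ∀ (s : ℕ → ℕ) (θ a b : ℝ), Tendsto s atTop atTop →
      Tendsto (fun k => ((s (k + 1) : ℝ) - s k) * (Real.log (s k) / Real.sqrt (s k)))
        atTop (𝓝 0) →
      0 ≤ θ → 0 < a →
      (∀ᶠ k in atTop, a * (s k : ℝ) ^ θ ≤ W (s k) ∧ W (s k) ≤ b * (s k : ℝ) ^ θ) →
      ∀ᶠ n : ℕ in atTop, a / 2 ^ (θ + 1) * (n : ℝ) ^ θ ≤ W n ∧ W n ≤ 2 * b * (n : ℝ) ^ θ := by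
  refine ⟨Pool.Agent.TH303.LTwo.rate Pool.Agent.W387.Q.f3, fun s θ a b hs hgap' hθ ha hab => ?_⟩
  have hgap := Pool.Agent.TH303.LTwo.gap s hs hgap'
  obtain ⟨K, hK⟩ := Pool.Agent.W387.Q.f3
  exact Pool.Agent.W387.Q.bounds_gen (fun n => W n) K (fun n hn => Pool.Agent.H739K.MW_pos hn) hK
    s hs hgap a b θ ha hθ hab

end Pool.Agent.Results.MP_c23e5f_co.ConsecutiveMeansLogTwo
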