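import Pool.Agent.TH262.SawL.PolyE
import Pool.Agent.TH262.SawL.Xi

/-!
The width of the planar self-avoiding polygons.  The law of the width of the uniform polygon with
`2 n` steps is, up to factors `exp (± K (log n)^4)`, the law of the end point of the uniform
`2 n`-step self-avoiding walk; so the exponent of the width is the exponent of the correlation
length of the self-avoiding walk, and the upper half of that exponent bounds the mean width.
-/

set_option autoImplicit false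

namespace Pool.Agent.Results.MP_c23e5f_co.PolygonWidthLaw

open Filter Topology

/-- a closed nearest-neighbour loop on `ℤ²` with `m` steps, rooted at the origin and oriented,
that visits no vertex twice -/
def IsLoop (m : ℕ) (f : ZMod m → ℤ × ℤ) : Prop :=
  f 0 = 0 ∧ Function.Injective f ∧
    ∀ i : ZMod m, |(f (i + 1)).1 - (f i).1| + |(f (i + 1)).2 - (f i).2| = 1

/-- the width (horizontal extent) of a loop -/
noncomputable def width (m : ℕ) (f : ZMod m → ℤ × ℤ) : ℕ :=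
  sSup {w : ℕ | ∃ i j, w = ((f i).1 - (f j).1).natAbs}

/-- the proportion of the self-avoiding polygons of perimeter `2 n` with width at least `r` -/
noncomputable def wide (n : ℕ) (r : ℝ) : ℝ :=
  ({f : ZMod (2 * n) → ℤ × ℤ | IsLoop (2 * n) f ∧ r ≤ width (2 * n) f}.ncard : ℝ) /
    ({f : ZMod (2 * n) → ℤ × ℤ | IsLoop (2 * n) f}.ncard : ℝ)

/-- the mean width `W_n` of the self-avoiding polygons of perimeter `2 n`: the average of the
width over the rooted oriented polygons. -/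
noncomputable def W (n : ℕ) : ℝ :=
  (∑ᶠ f ∈ {f : ZMod (2 * n) → ℤ × ℤ | IsLoop (2 * n) f}, (width (2 * n) f : ℝ)) /
    ({f : ZMod (2 * n) → ℤ × ℤ | IsLoop (2 * n) f}.ncard : ℝ)

/-- `ω` is an `n`-step self-avoiding walk on `ℤ²` started at the origin. -/
def IsSAW (n : ℕ) (ω : Fin (n + 1) → ℤ × ℤ) : Prop :=
  ω 0 = (0, 0) ∧
  (∀ i : Fin n, |(ω i.succ).1 - (ω i.castSucc).1| + |(ω i.succ).2 - (ω i.castSucc).2| = 1) ∧
  Function.Injective ω

/-- `c_n`: the number of `n`-step self-avoiding walks from the origin -/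
noncomputable def c (n : ℕ) : ℕ := Nat.card {ω : Fin (n + 1) → ℤ × ℤ // IsSAW n ω}

/-- `c_n(x)`: the number of `n`-step self-avoiding walks from the origin to `x` -/
noncomputable def cx (n : ℕ) (x : ℤ × ℤ) : ℕ :=
  Nat.card {ω : Fin (n + 1) → ℤ × ℤ // IsSAW n ω ∧ ω (Fin.last n) = x}

/-- `P_n(ω(n) = x)` for the uniform `n`-step self-avoiding walk -/
noncomputable def P (n : ℕ) (x : ℤ × ℤ) : ℝ := (cx n x : ℝ) / (c n : ℝ)

/-- the two-point function `G_z(x) = ∑_n c_n(x) z^n` -/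
noncomputable def G (z : ℝ) (x : ℤ × ℤ) : ℝ := ∑' n : ℕ, (cx n x : ℝ) * z ^ n

theorem c_eq (n : ℕ) : c n = TH795.EP.c n := TH795.EP.card_walks n

theorem cx_eq (n : ℕ) (x : ℤ × ℤ) : cx n x = TH795.EP.a n x.1 x.2 := TH795.EP.card_walks_to n x

theorem G_eq (z : ℝ) (k : ℕ) : G z ((k : ℤ), 0) = TH262.SawL.Gz z k 0 := by
  unfold G TH262.SawL.Gz
  apply tsum_congr
  intro n
  rw [cx_eq]

/-- **Theorem.** (1) There is `K` such that for all `n ≥ 2` and `1 ≤ k < n` the logarithm of the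
proportion of the self-avoiding polygons of perimeter `2 n` whose width is at least `k` differs
from `log P_{2n}(ω(2n) = (2k, 0))` by at most `K (log n)^4`.
(2) Let `μ = lim c_n^(1/n)`.  For `0 < z < 1/μ` the correlation length
`ξ(z) = (lim_k - (1/k) log G_z((k, 0)))^(-1)` of the self-avoiding walk exists and is positive and
finite, and for every `θ` in `(0, 1)`:
(a) `ξ(z) ≤ (1/μ - z)^(-θ-o(1))` as `z ↑ 1/μ` if and only if for every `ε > 0` there is `δ > 0` such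
that for all large `n` at most the proportion `exp (- n^δ)` of the polygons of perimeter `2 n` has
width at least `n^(θ+ε)`;
(b) `ξ(z) ≥ (1/μ - z)^(-θ+o(1))` as `z ↑ 1/μ` if and only if for all `ε, δ > 0` and all large `n` at
least the proportion `exp (- n^δ)` of the polygons of perimeter `2 n` has width at least
`n^(θ-ε)`;
(c) if `ξ(z) ≤ (1/μ - z)^(-θ-o(1))`, then `W_n ≤ n^(θ+o(1))`. -/
theorem result :
    (∃ K : ℝ, ∀ n : ℕ, 2 ≤ n → ∀ k : ℕ, 1 ≤ k → k < n →
      |Real.log (wide n k) - Real.log (P (2 * n) (2 * k, 0))| ≤ K * Real.log n ^ 4) ∧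
    ∃ (μ : ℝ) (ξ : ℝ → ℝ), 0 < μ ∧
      Tendsto (fun n : ℕ => (c n : ℝ) ^ (1 / (n : ℝ))) atTop (𝓝 μ) ∧
      (∀ z : ℝ, 0 < z → z < 1 / μ → 0 < ξ z ∧
        Tendsto (fun k : ℕ => - Real.log (G z ((k : ℤ), 0)) / k) atTop (𝓝 (1 / ξ z))) ∧
      ∀ θ : ℝ, 0 < θ → θ < 1 →
        ((∀ ε : ℝ, 0 < ε → ∀ᶠ z in 𝓝[<] (1 / μ), ξ z ≤ (1 / μ - z) ^ (-(θ + ε))) ↔
          (∀ ε : ℝ, 0 < ε → ∃ δ : ℝ, 0 < δ ∧ ∀ᶠ n : ℕ in atTop,
            wide n ((n : ℝ) ^ (θ + ε)) ≤ Real.exp (-(n : ℝ) ^ δ))) ∧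
        ((∀ ε : ℝ, 0 < ε → ∀ᶠ z in 𝓝[<] (1 / μ), (1 / μ - z) ^ (-(θ - ε)) ≤ ξ z) ↔
          (∀ ε : ℝ, 0 < ε → ∀ δ : ℝ, 0 < δ → ∀ᶠ n : ℕ in atTop,
            Real.exp (-(n : ℝ) ^ δ) ≤ wide n ((n : ℝ) ^ (θ - ε)))) ∧
        ((∀ ε : ℝ, 0 < ε → ∀ᶠ z in 𝓝[<] (1 / μ), ξ z ≤ (1 / μ - z) ^ (-(θ + ε))) →
          ∀ ε : ℝ, 0 < ε → ∀ᶠ n : ℕ in atTop, W n ≤ (n : ℝ) ^ (θ + ε)) := by
  have hup : ∀ θ : ℝ, 0 < θ → θ < 1 →
      ((∀ ε : ℝ, 0 < ε → ∀ᶠ z in 𝓝[<] (1 / H981.mu), TH262.SawL.xi z ≤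
        (1 / H981.mu - z) ^ (-(θ + ε))) ↔ TH262.SawL.PolyUp θ) := by
    intro θ h0 h1
    rw [← TH262.SawL.xi_upper θ h0]
    constructor
    · intro h
      exact TH262.SawL.rUp_polyUp h1 (TH262.SawL.massLow_rUp h)
    · intro h
      exact TH262.SawL.rUp_massLow h0 h1 (TH262.SawL.polyUp_rUp h)
  refine ⟨?_, H981.mu, TH262.SawL.xi, H981.mu_pos, ?_, ?_, ?_⟩
  · obtain ⟨K, hK⟩ := TH262.SawL.log_pw
    refine ⟨K, ?_⟩
    intro n hn k hk hkn
    have h := hK n hn k hk hkn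
    unfold P
    rw [c_eq, cx_eq]
    exact h
  · have h := H981.tendsto_root
    refine h.congr ?_
    intro n
    rw [c_eq, TH795.EP.c_eq]
  · intro z hz hz1
    have hmu := H981.mu_pos
    have he : 0 < -Real.log (z * H981.mu) := by
      have h1 : z * H981.mu < 1 := by rwa [lt_div_iff₀ hmu] at hz1
      have h2 := Real.log_neg (mul_pos hz hmu) h1
      linarith
    have hm := TH262.SawL.mass_pos he
    constructor
    · unfold TH262.SawL.xi
      positivity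
    · have h := TH262.SawL.G_tendsto hz hz1
      unfold TH262.SawL.xi
      rw [one_div_one_div]
      refine h.congr ?_
      intro k
      rw [G_eq]
  · intro θ h0 h1
    refine ⟨hup θ h0 h1, ?_, ?_⟩
    · rw [← TH262.SawL.xi_lower θ h0]
      constructor
      · intro h
        exact TH262.SawL.rLow_polyLow (TH262.SawL.massUp_rLow h0 h1 h)
      · intro h
        exact TH262.SawL.rLow_massUp h0 h1 (TH262.SawL.polyLow_rLow h1 h)
    · intro h
      exact TH262.SawL.polyUp_mw h0 ((hup θ h0 h1).1 h)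

end Pool.Agent.Results.MP_c23e5f_co.PolygonWidthLaw
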