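import Pool.Agent.TH546.XI.PolyW

/-!
Square-lattice self-avoiding polygons: the law of the width is given, at every scale, by the
Legendre transform of the inverse correlation length of the self-avoiding walk, and the mean width
is at most `K ξ (log n)^4`, where `ξ` is the correlation length at distance `1 / (2 n)` from the
critical point.
-/

set_option autoImplicit false

namespace Pool.Agent.Results.MP_c23e5f_co.WidthByCorrelation

open Filter Topology

/-- a closed nearest-neighbour loop on `ℤ²` with `m` steps, rooted at the origin and oriented,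
that visits no vertex twice -/
def IsLoop (m : ℕ) (f : ZMod m → ℤ × ℤ) : Prop :=
  f 0 = 0 ∧ Function.Injective f ∧
    ∀ i : ZMod m, |(f (i + 1)).1 - (f i).1| + |(f (i + 1)).2 - (f i).2| = 1

/-- the width (horizontal extent) of a loop -/
noncomputable def width (m : ℕ) (f : ZMod m → ℤ × ℤ) : ℕ :=
  sSup {w : ℕ | ∃ i j, w = ((f i).1 - (f j).1).natAbs}

/-- the proportion of the self-avoiding polygons of perimeter `2 n` with width at least `r` -/
noncomputable def wide (n : ℕ) (r : ℝ) : ℝ :=
  ({f : ZMod (2 * n) → ℤ × ℤ | IsLoop (2 * n) f ∧ r ≤ width (2 * n) f}.ncard : ℝ) /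
    ({f : ZMod (2 * n) → ℤ × ℤ | IsLoop (2 * n) f}.ncard : ℝ)

/-- the mean width `W_n` of the self-avoiding polygons of perimeter `2 n`: the average of the
width over the rooted oriented polygons. -/
noncomputable def W (n : ℕ) : ℝ :=
  (∑ᶠ f ∈ {f : ZMod (2 * n) → ℤ × ℤ | IsLoop (2 * n) f}, (width (2 * n) f : ℝ)) /
    ({f : ZMod (2 * n) → ℤ × ℤ | IsLoop (2 * n) f}.ncard : ℝ)

/-- `ω` is an `n`-step self-avoiding walk on `ℤ²` started at the origin. -/
def IsSAW (n : ℕ) (ω : Fin (n + 1) → ℤ × ℤ) : Prop :=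
  ω 0 = (0, 0) ∧
  (∀ i : Fin n, |(ω i.succ).1 - (ω i.castSucc).1| + |(ω i.succ).2 - (ω i.castSucc).2| = 1) ∧
  Function.Injective ω

/-- `c_n`: the number of `n`-step self-avoiding walks from the origin -/
noncomputable def c (n : ℕ) : ℕ := Nat.card {ω : Fin (n + 1) → ℤ × ℤ // IsSAW n ω}

/-- `c_n(x)`: the number of `n`-step self-avoiding walks from the origin to `x` -/
noncomputable def cx (n : ℕ) (x : ℤ × ℤ) : ℕ :=
  Nat.card {ω : Fin (n + 1) → ℤ × ℤ // IsSAW n ω ∧ ω (Fin.last n) = x}

/-- the two-point function `G_z(x) = ∑_n c_n(x) z^n` -/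
noncomputable def G (z : ℝ) (x : ℤ × ℤ) : ℝ := ∑' n : ℕ, (cx n x : ℝ) * z ^ n

theorem c_eq (n : ℕ) : c n = TH795.EP.c n := TH795.EP.card_walks n

theorem cx_eq (n : ℕ) (x : ℤ × ℤ) : cx n x = TH795.EP.a n x.1 x.2 := TH795.EP.card_walks_to n x

theorem G_eq (z : ℝ) (k : ℕ) : G z ((k : ℤ), 0) = TH262.SawL.Gz z k 0 := by
  unfold G TH262.SawL.Gz
  apply tsum_congr
  intro n
  rw [cx_eq]

/-- **Theorem.** Let `μ = lim c_n^(1/n)`.  For `0 < z < 1/μ` the correlation length
`ξ(z) = (lim_k - (1/k) log G_z((k, 0)))^(-1)` of the self-avoiding walk exists and is positive and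
finite.  There is `K` such that for every `n ≥ 2`:
(1) for all `1 ≤ k < n`, up to an error `K (log n)^4`, the logarithm of the proportion of the
polygons of perimeter `2 n` with width at least `k` is
`- sup_{0 < z < 1/μ} (2 k / ξ(z) + 2 n log (μ z))`;
(2) the mean width satisfies `W_n ≤ K ξ(e^(-1/(2n)) / μ) (log n)^4`. -/
theorem result : ∃ (μ : ℝ) (ξ : ℝ → ℝ), 0 < μ ∧
    Tendsto (fun n : ℕ => (c n : ℝ) ^ (1 / (n : ℝ))) atTop (𝓝 μ) ∧
    (∀ z : ℝ, 0 < z → z < 1 / μ → 0 < ξ z ∧
      Tendsto (fun k : ℕ => - Real.log (G z ((k : ℤ), 0)) / k) atTop (𝓝 (1 / ξ z))) ∧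
    ∃ K : ℝ, ∀ n : ℕ, 2 ≤ n →
      (∀ k : ℕ, 1 ≤ k → k < n →
        (∀ z : ℝ, 0 < z → z < 1 / μ →
          Real.log (wide n k) ≤
            -(2 * k / ξ z + 2 * n * Real.log (μ * z)) + K * Real.log n ^ 4) ∧
        (∃ z : ℝ, 0 < z ∧ z < 1 / μ ∧
          -(2 * k / ξ z + 2 * n * Real.log (μ * z)) - K * Real.log n ^ 4 ≤
            Real.log (wide n k))) ∧
      W n ≤ K * ξ (Real.exp (-1 / (2 * n)) / μ) * Real.log n ^ 4 := by
  have hmu := H981.mu_pos
  refine ⟨H981.mu, TH262.SawL.xi, hmu, ?_, ?_, ?_⟩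
  · have h := H981.tendsto_root
    refine h.congr ?_
    intro n
    rw [c_eq, TH795.EP.c_eq]
  · intro z hz hz1
    have he : 0 < -Real.log (z * H981.mu) := by
      have h1 : z * H981.mu < 1 := by rwa [lt_div_iff₀ hmu] at hz1
      have h2 := Real.log_neg (mul_pos hz hmu) h1
      linarith
    have hm := TH262.SawL.mass_pos he
    constructor
    · unfold TH262.SawL.xi
      positivity
    · have h := TH262.SawL.G_tendsto hz hz1
      unfold TH262.SawL.xi
      rw [one_div_one_div]
      refine h.congr ?_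
      intro k
      rw [G_eq]
  · obtain ⟨K1, hK1, h1⟩ := TH546.XI.width_mean
    obtain ⟨K2, hK2, h2⟩ := TH546.XI.pw_legendre
    refine ⟨K1 + K2, fun n hn => ?_⟩
    have hn0 : (0 : ℝ) < n := by exact_mod_cast (by omega : 0 < n)
    have hL4 : 0 ≤ Real.log (n : ℝ) ^ 4 := by positivity
    have p1 : 0 ≤ K1 * Real.log (n : ℝ) ^ 4 := by positivity
    have p2 : 0 ≤ K2 * Real.log (n : ℝ) ^ 4 := by positivity
    refine ⟨?_, ?_⟩
    · intro k hk hkn
      obtain ⟨h5, e, he, h6⟩ := h2 n hn k hk hkn
      have hW : wide n k = TH262.SawL.pw n k := rfl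
      rw [hW]
      constructor
      · intro z hz hz1
        have he : 0 < -Real.log (z * H981.mu) := by
          have h1 : z * H981.mu < 1 := by rwa [lt_div_iff₀ hmu] at hz1
          have h2 := Real.log_neg (mul_pos hz hmu) h1
          linarith
        have h7 := h5 _ he
        have e1 : 2 * (k : ℝ) / TH262.SawL.xi z =
            2 * k * TH262.SawL.mass (-Real.log (z * H981.mu)) := by
          unfold TH262.SawL.xi
          rw [div_div_eq_mul_div, div_one]
        rw [e1, mul_comm H981.mu z]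
        linarith
      · have hz : 0 < Real.exp (-e) / H981.mu := by positivity
        refine ⟨Real.exp (-e) / H981.mu, hz, ?_, ?_⟩
        · apply div_lt_div_of_pos_right _ hmu
          rw [Real.exp_lt_one_iff]
          linarith
        · have e1 : 2 * (k : ℝ) / TH262.SawL.xi (Real.exp (-e) / H981.mu) =
              2 * k * TH262.SawL.mass e := by
            unfold TH262.SawL.xi
            rw [div_div_eq_mul_div, div_one, TH262.SawL.e_z]
          have e2 : Real.log (H981.mu * (Real.exp (-e) / H981.mu)) = -e := by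
            rw [mul_div_cancel₀ _ hmu.ne', Real.log_exp]
          rw [e1, e2]
          linarith
    · have hm : 0 < TH262.SawL.mass (1 / (2 * (n : ℝ))) := TH262.SawL.mass_pos (by positivity)
      have hxi : TH262.SawL.xi (Real.exp (-1 / (2 * n)) / H981.mu) =
          1 / TH262.SawL.mass (1 / (2 * (n : ℝ))) := by
        unfold TH262.SawL.xi
        have e := TH262.SawL.e_z (1 / (2 * (n : ℝ)))
        have e2 : -(1 / (2 * (n : ℝ))) = -1 / (2 * n) := by ring
        rw [e2] at e
        rw [e]
      rw [hxi]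
      have : W n = TH262.SawL.mw n := rfl
      rw [this]
      refine (h1 n hn).trans ?_
      apply mul_le_mul_of_nonneg_right _ hL4
      apply mul_le_mul_of_nonneg_right _ (by positivity)
      linarith

end Pool.Agent.Results.MP_c23e5f_co.WidthByCorrelation
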